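import Mathlib
import Pool.Agent.J4.H7.FB.Fib

/-!
# Sparse combinations of Fibonacci numbers have only small factors in common with `F_p`, `L_p`, `L_(2^m)`

Let `D = ∑ (u_i F_(a_i) + u'_i F_(a_i + 1))` be a sum of `K` terms with arbitrary integer coefficients and arbitrary
indices, and `U = ∑ (|u_i| + 2 |u'_i|)`. Let `p` be an odd prime. Either `F_p` divides `D`, or for every `t ≥ 1`
`gcd (D, F_p) ≤ (4 U) ^ (t ^ K) * φ ^ (2 p / t)`. Let `n` be an odd prime or a power of two. Either `L_n` divides `D`, or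
`gcd (D, L_n) ≤ (4 U) ^ (2 t ^ K) * φ ^ (2 n / t)` for every `t ≥ 1`. (If `L_n` is prime then `n` is a prime or a power of
two; if `F_n` is prime then `n` is a prime or `4`.)

For a sum `D` of at most `c log n` signed Fibonacci numbers, not divisible by `F_n` (resp. `L_n`), the greatest common
divisor is at most `F_n ^ ε` (resp. `L_n ^ ε`). So every divisor `F_n ^ ε ≤ d < F_n` has at least `c log n` digits `1` in
its Zeckendorf representation: a large proper factor of `F_n` or `L_n` is never sparse, in whatever way the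
cofactor looks like.

Proof (`Pool/Agent/J4/H7/FB`). In `ℤ[φ]` we have `√5 D = ∑ (c_i φ ^ a_i + c'_i φ ^ (-a_i))`, and
`φ ^ (2 p) ≡ -1` modulo `F_p`, `φ ^ (2 ^ (m + 1)) ≡ -1` modulo `L_(2 ^ m)`; the norm of `φ ^ p - 1` is `-L_p`, and
`φ ^ p ≡ 1` modulo `φ ^ p - 1`. With `N = 2 p` (resp. `2 ^ (m + 1)`, `p`), the exponents are reduced modulo `N` and approximated by
multiples `α_i N / q` of `N / q`, `q ≤ t ^ K`, by Dirichlet. The polynomial `P = X ^ q ∓ φ ^ N` is irreducible over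
`ℚ(√5)`; `P (1)` is `φ ^ N ∓ 1` up to sign and `β = ∑ (c_i φ ^ a_i X ^ (h - α_i) + c'_i φ ^ (-a_i) X ^ (h + α_i))` has the value
`√5 D` at `X = 1`. If `P` divides `β` then `F_p` (resp. `L_p`) divides `D`. Otherwise the norm of `β` modulo `P`
is a nonzero element of `ℤ[φ]` divisible by the common divisors, and in the basis `X ^ k / φ ^ ⌊N k / q⌋` the matrix of
multiplication by `β / X ^ h` has small entries, as well as its conjugate.
-/

set_option autoImplicit false

open Finset Filter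

namespace Pool.Agent.Results.MP_5893d7_nt.GcdWithSparseCombinations

/-- The Lucas numbers. -/
def L : ℕ → ℕ
  | 0 => 2
  | 1 => 1
  | (n + 2) => L (n + 1) + L n

/-- `(n, M)` is `(p, F_p)` or `(p, L_p)` for an odd prime `p`, or `(2 ^ m, L_(2 ^ m))`. -/
def Admissible (n M : ℕ) : Prop :=
  (n.Prime ∧ n ≠ 2 ∧ (M = Nat.fib n ∨ M = L n)) ∨ ((∃ m : ℕ, n = 2 ^ m) ∧ M = L n)

/-- `D` is a sum of `w` signed Fibonacci numbers. -/
def IsSum (w : ℕ) (D : ℤ) : Prop :=
  ∃ (ε : Fin w → ℤ) (a : Fin w → ℕ), (∀ i, ε i = 1 ∨ ε i = -1) ∧ D = ∑ i, ε i * Nat.fib (a i)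

open Pool.Agent.J4.H7.FB Pool.Agent.N449.SQ

lemma L_eq (n : ℕ) : V 1 n = L n := by
  induction n using Nat.strong_induction_on with
  | _ n ih =>
    match n with
    | 0 => simp [V, L]
    | 1 => simp [V, L]
    | n + 2 =>
      rw [V, ih (n + 1) (by omega), ih n (by omega), L]
      push_cast
      ring

/-- the common bound -/
lemma bound (n M : ℕ) (h : Admissible n M) (K t : ℕ) (ht : 0 < t) (u u' : Fin K → ℤ) (a : Fin K → ℕ)
    (D : ℤ) (hD : D = ∑ i, (u i * Nat.fib (a i) + u' i * Nat.fib (a i + 1))) (hM : ¬ (M : ℤ) ∣ D) :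
    (D.gcd M : ℝ) ≤ (4 * ((∑ i, (|u i| + 2 * |u' i|) : ℤ) : ℝ)) ^ (2 * t ^ K) * Real.goldenRatio ^ (2 * n / t) := by
  have hU : (1 : ℝ) ≤ ((∑ i, (|u i| + 2 * |u' i|) : ℤ) : ℝ) := by
    exact_mod_cast one_le_U u u' a (M : ℤ) (by rw [← hD]; exact hM)
  have he1 : (1 : ℝ) ≤ Real.goldenRatio := Real.one_lt_goldenRatio.le
  have hmono : ∀ x y : ℕ, (4 * ((∑ i, (|u i| + 2 * |u' i|) : ℤ) : ℝ)) ^ (t ^ K) * Real.goldenRatio ^ x ≤
      (4 * ((∑ i, (|u i| + 2 * |u' i|) : ℤ) : ℝ)) ^ (2 * t ^ K) * Real.goldenRatio ^ x := fun x y =>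
    mul_le_mul_of_nonneg_right (pow_le_pow_right₀ (by linarith) (by omega)) (by positivity)
  rcases h with ⟨hp, hp2, h | h⟩ | ⟨⟨m, hm⟩, h⟩
  · subst h
    have h1 := gcd_fib n hp hp2 K t ht u u' a D hD hM
    rw [eps_one] at h1
    exact h1.trans (hmono _ 0)
  · subst h
    have h1 := gcd_lucas n hp hp2 K t ht u u' a D hD (by rw [L_eq]; exact hM)
    rw [eps_one, L_eq] at h1
    refine h1.trans (mul_le_mul_of_nonneg_left ?_ (by positivity))
    apply pow_le_pow_right₀ he1
    rw [Nat.le_div_iff_mul_le ht]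
    have := Nat.div_mul_le_self n t
    calc 2 * (n / t) * t = 2 * (n / t * t) := by ring
      _ ≤ 2 * n := Nat.mul_le_mul_left _ this
  · subst h
    subst hm
    have h1 := gcd_lucas_two m K t ht u u' a D hD (by rw [L_eq]; exact hM)
    rw [eps_one, L_eq] at h1
    exact h1.trans (hmono _ 0)

/-- sums of signed Fibonacci numbers -/
lemma isSum_bound (n M : ℕ) (h : Admissible n M) (w t : ℕ) (D : ℤ) (ht : 0 < t) (hD : IsSum w D)
    (hM : ¬ (M : ℤ) ∣ D) :
    0 < w ∧ (D.gcd M : ℝ) ≤ (4 * w : ℝ) ^ (2 * t ^ w) * Real.goldenRatio ^ (2 * n / t) := by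
  obtain ⟨ε, a, hε, hD⟩ := hD
  have h0 : ∑ i, (|ε i| + 2 * |(0 : ℤ)|) = (w : ℤ) := by
    rw [Finset.sum_congr rfl fun i _ => show |ε i| + 2 * |(0 : ℤ)| = 1 by rcases hε i with h | h <;> simp [h]]
    simp
  have h1 := bound n M h w t ht ε (fun _ => 0) a D (by rw [hD]; simp) hM
  refine ⟨?_, ?_⟩
  · rcases Nat.eq_zero_or_pos w with h2 | h2
    · subst h2
      exfalso
      apply hM
      rw [hD]
      simp
    · exact h2
  · rw [h0] at h1
    exact_mod_cast h1

lemma isSum_zeckendorf (d : ℕ) : IsSum d.zeckendorf.length (d : ℤ) := by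
  refine ⟨fun _ => 1, fun i => d.zeckendorf[i], fun _ => Or.inl rfl, ?_⟩
  have h1 : (d.zeckendorf.map Nat.fib).sum = ∑ i : Fin d.zeckendorf.length, Nat.fib d.zeckendorf[i] := by
    rw [← List.sum_ofFn]
    congr 1
    apply List.ext_getElem
    · simp
    · intro i h1 h2
      simp
  conv_lhs => rw [← Nat.sum_zeckendorf_fib d, h1]
  push_cast
  exact Finset.sum_congr rfl fun i _ => by simp

/-- the size of `M` -/
lemma size (n M : ℕ) (h : Admissible n M) : Real.goldenRatio ^ n ≤ M * Real.goldenRatio ^ 2 := by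
  have he1 : (1 : ℝ) < Real.goldenRatio := Real.one_lt_goldenRatio
  have hsq : Real.goldenRatio ^ 2 = Real.goldenRatio + 1 := Real.goldenRatio_sq
  have hfib : ∀ n : ℕ, Real.goldenRatio ^ n ≤ Nat.fib n * Real.goldenRatio ^ 2 ∨ n = 0 := by
    intro n
    induction n using Nat.strong_induction_on with
    | _ n ih =>
      match n with
      | 0 => right; rfl
      | 1 => left; simp only [Nat.fib_one, pow_one, Nat.cast_one, one_mul]; nlinarith
      | 2 => left; simp
      | n + 3 =>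
        left
        have h1 := (ih (n + 1) (by omega)).resolve_right (by omega)
        have h2 := (ih (n + 2) (by omega)).resolve_right (by omega)
        rw [show n + 3 = (n + 1) + 2 by ring, Nat.fib_add_two, pow_add, hsq]
        push_cast
        rw [show n + 1 + 1 = n + 2 by ring]
        have e1 : Real.goldenRatio ^ (n + 2) = Real.goldenRatio ^ (n + 1) * Real.goldenRatio := by ring
        nlinarith
  have hL : ∀ n : ℕ, Nat.fib n ≤ L n := by
    intro n
    induction n using Nat.strong_induction_on with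
    | _ n ih =>
      match n with
      | 0 => simp [L]
      | 1 => simp [L]
      | n + 2 =>
        rw [Nat.fib_add_two, L]
        have h1 := ih n (by omega)
        have h2 := ih (n + 1) (by omega)
        omega
  have hn : n ≠ 0 := by
    rcases h with ⟨hp, -, -⟩ | ⟨⟨m, hm⟩, -⟩
    · exact hp.ne_zero
    · rw [hm]; positivity
  have h1 := (hfib n).resolve_right hn
  have h2 : Nat.fib n ≤ M := by
    rcases h with ⟨-, -, h | h⟩ | ⟨-, h⟩
    · exact h.ge
    · rw [h]; exact hL n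
    · rw [h]; exact hL n
  refine h1.trans (mul_le_mul_of_nonneg_right (by exact_mod_cast h2) (by positivity))

/-- a factor `d ≥ √M` -/
lemma half {M d e : ℕ} (hde : d * e = M) (he : 1 < e) (hed : e ≤ d) :
    ¬ (M : ℤ) ∣ d ∧ (Int.gcd (d : ℤ) M : ℕ) = d ∧ M ≤ d ^ 2 ∧ 0 < d := by
  have hd : 0 < d := by omega
  refine ⟨fun h => ?_, ?_, ?_, hd⟩
  · have h1 : M ∣ d := by exact_mod_cast h
    have h2 := Nat.le_of_dvd hd h1
    rw [← hde] at h2
    nlinarith
  · rw [Int.gcd_natCast_natCast]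
    exact Nat.gcd_eq_left ⟨e, hde.symm⟩
  · rw [← hde, sq]
    exact Nat.mul_le_mul_left _ hed

lemma four_le_pow (k : ℕ) (hk : 0 < k) : (4 * k : ℝ) ≤ Real.goldenRatio ^ (4 * k) := by
  have h4 : (4 : ℝ) ≤ Real.goldenRatio ^ 4 := by
    have hsq : Real.goldenRatio ^ 2 = Real.goldenRatio + 1 := Real.goldenRatio_sq
    have he1 : (1 : ℝ) < Real.goldenRatio := Real.one_lt_goldenRatio
    nlinarith
  have h5 : (k : ℝ) ≤ 4 ^ (k - 1) := by
    have : k ≤ 4 ^ (k - 1) := by
      have h6 : k - 1 < 2 ^ (k - 1) := Nat.lt_two_pow_self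
      have h7 : 2 ^ (k - 1) ≤ 4 ^ (k - 1) := Nat.pow_le_pow_left (by norm_num) _
      omega
    exact_mod_cast this
  calc (4 * k : ℝ) ≤ 4 * 4 ^ (k - 1) := by linarith
    _ = 4 ^ k := by rw [← pow_succ', Nat.sub_add_cancel hk]
    _ ≤ (Real.goldenRatio ^ 4) ^ k := pow_le_pow_left₀ (by norm_num) h4 _
    _ = _ := by rw [← pow_mul]

/-- the explicit bound -/
lemma explicit (n M d e w : ℕ) (h : Admissible n M) (hde : d * e = M) (he : 1 < e) (hed : e ≤ d)
    (hw : IsSum w d) : n ≤ 90 * w * 5 ^ w := by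
  obtain ⟨h1, h2, h3, hd⟩ := half hde he hed
  obtain ⟨hw0, h4⟩ := isSum_bound n M h w 5 d (by norm_num) hw h1
  rw [h2] at h4
  have hφ : (1 : ℝ) < Real.goldenRatio := Real.one_lt_goldenRatio
  have h5 : Real.goldenRatio ^ n ≤ Real.goldenRatio ^ (16 * w * 5 ^ w + 2 * (2 * n / 5) + 2) := by
    calc Real.goldenRatio ^ n ≤ M * Real.goldenRatio ^ 2 := size n M h
      _ ≤ (d : ℝ) ^ 2 * Real.goldenRatio ^ 2 := by
          apply mul_le_mul_of_nonneg_right _ (by positivity)
          exact_mod_cast h3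
      _ ≤ ((4 * w : ℝ) ^ (2 * 5 ^ w) * Real.goldenRatio ^ (2 * n / 5)) ^ 2 * Real.goldenRatio ^ 2 := by
          apply mul_le_mul_of_nonneg_right _ (by positivity)
          exact pow_le_pow_left₀ (by positivity) h4 2
      _ ≤ ((Real.goldenRatio ^ (4 * w)) ^ (2 * 5 ^ w) * Real.goldenRatio ^ (2 * n / 5)) ^ 2 * Real.goldenRatio ^ 2 := by
          have := four_le_pow w hw0
          gcongr
      _ = _ := by
          rw [← pow_mul, ← pow_add, ← pow_mul, ← pow_add]
          congr 1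
          ring
  have h6 := (pow_le_pow_iff_right₀ hφ).1 h5
  have h7 : 5 * (2 * n / 5) ≤ 2 * n := Nat.mul_div_le _ _
  obtain ⟨Y, hY⟩ : ∃ Y, Y = w * 5 ^ w := ⟨_, rfl⟩
  have h8 : 5 ≤ Y := by
    rw [hY]
    calc 5 = 1 * 5 ^ 1 := by norm_num
      _ ≤ w * 5 ^ w := Nat.mul_le_mul hw0 (Nat.pow_le_pow_right (by norm_num) hw0)
  rw [mul_assoc, ← hY] at h6 ⊢
  omega

lemma tendsto_log_rpow (δ : ℝ) (hδ : 0 < δ) :
    Tendsto (fun n : ℕ => Real.log n * (n : ℝ) ^ (-δ)) atTop (nhds 0) := by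
  have h1 := (isLittleO_log_rpow_atTop hδ).tendsto_div_nhds_zero
  have h2 := h1.comp (tendsto_natCast_atTop_atTop (R := ℝ))
  refine h2.congr' ?_
  filter_upwards [eventually_gt_atTop 0] with n hn
  have : (0 : ℝ) < n := by exact_mod_cast hn
  simp only [Function.comp_apply]
  rw [Real.rpow_neg this.le, div_eq_mul_inv]

/-- up to `c log n` terms -/
lemma log_weight (t : ℕ) (ε c : ℝ) (ht : 2 ≤ t) (hε : 2 / t < ε) (hc : c * Real.log t < 1) :
    ∀ᶠ n : ℕ in atTop, ∀ (M w : ℕ) (D : ℤ), Admissible n M → (w : ℝ) ≤ c * Real.log n → IsSum w D →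
      ¬ (M : ℤ) ∣ D → (D.gcd M : ℝ) ≤ (M : ℝ) ^ ε := by
  have ht0 : (0 : ℝ) < t := by exact_mod_cast (by omega : 0 < t)
  have ht1 : (1 : ℝ) < t := by exact_mod_cast (by omega : 1 < t)
  have hφ : (1 : ℝ) < Real.goldenRatio := Real.one_lt_goldenRatio
  have hlφ : 0 < Real.log Real.goldenRatio := Real.log_pos hφ
  have hlt : 0 < Real.log t := Real.log_pos ht1
  have hε0 : 0 < ε := lt_of_le_of_lt (by positivity) hε
  obtain ⟨δ, hδ⟩ : ∃ δ, δ = 1 - c * Real.log t := ⟨_, rfl⟩
  have hδ0 : 0 < δ := by rw [hδ]; linarith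
  obtain ⟨η, hη⟩ : ∃ η, η = (ε - 2 / t) * Real.log Real.goldenRatio := ⟨_, rfl⟩
  have hη0 : 0 < η := by
    rw [hη]
    exact mul_pos (by linarith) hlφ
  have hlim : Tendsto (fun n : ℕ => (8 * |c|) * (Real.log n * (n : ℝ) ^ (-δ)) +
      (2 * ε * Real.log Real.goldenRatio) * (n : ℝ)⁻¹) atTop (nhds 0) := by
    have h1 := (tendsto_log_rpow δ hδ0).const_mul (8 * |c|)
    have h2 := (tendsto_inv_atTop_nhds_zero_nat (𝕜 := ℝ)).const_mul (2 * ε * Real.log Real.goldenRatio)
    simpa using h1.add h2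
  filter_upwards [hlim.eventually (gt_mem_nhds hη0), eventually_ge_atTop 2] with n hn hn2 M w D hA hw hD hM
  obtain ⟨hw0, h4⟩ := isSum_bound n M hA w t D (by omega) hD hM
  have hw0' : (1 : ℝ) ≤ w := by exact_mod_cast hw0
  have hn0 : (0 : ℝ) < n := by exact_mod_cast (by omega : 0 < n)
  have hn1 : (1 : ℝ) < n := by exact_mod_cast (by omega : 1 < n)
  have hlogn : 0 < Real.log n := Real.log_pos hn1
  refine h4.trans ?_
  have hM0 : 0 < M := by
    rcases Nat.eq_zero_or_pos M with h | h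
    · have := size n M hA
      rw [h, Nat.cast_zero, zero_mul] at this
      exact absurd this (not_le.2 (by positivity))
    · exact h
  have hMR : (0 : ℝ) < M := by exact_mod_cast hM0
  -- logarithms
  have hlogM : (n : ℝ) * Real.log Real.goldenRatio ≤ Real.log M + 2 * Real.log Real.goldenRatio := by
    have h5 := Real.log_le_log (by positivity) (size n M hA)
    rw [Real.log_pow, Real.log_mul (by positivity) (by positivity), Real.log_pow] at h5
    push_cast at h5
    exact h5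
  have hlog : 2 * (t : ℝ) ^ w * Real.log (4 * w) + 2 * ε * Real.log Real.goldenRatio ≤ η * n := by
    have e1 : (t : ℝ) ^ w ≤ (n : ℝ) ^ (-δ) * n := by
      calc (t : ℝ) ^ w = (t : ℝ) ^ (w : ℝ) := by rw [Real.rpow_natCast]
        _ ≤ (t : ℝ) ^ (c * Real.log n) := Real.rpow_le_rpow_of_exponent_le ht1.le hw
        _ = (n : ℝ) ^ (c * Real.log t) := by
            rw [Real.rpow_def_of_pos ht0, Real.rpow_def_of_pos hn0]
            congr 1
            ring
        _ = (n : ℝ) ^ (-δ + 1) := by rw [hδ]; congr 1; ring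
        _ = _ := by rw [Real.rpow_add hn0, Real.rpow_one]
    have e2 : Real.log (4 * w) ≤ 4 * |c| * Real.log n := by
      have h1 : Real.log (4 * w) ≤ 4 * w := (Real.log_le_sub_one_of_pos (by positivity)).trans (by linarith)
      have h2 : (w : ℝ) ≤ |c| * Real.log n := hw.trans (mul_le_mul_of_nonneg_right (le_abs_self c) hlogn.le)
      linarith
    have e3 : 0 ≤ Real.log (4 * w) := Real.log_nonneg (by linarith)
    calc 2 * (t : ℝ) ^ w * Real.log (4 * w) + 2 * ε * Real.log Real.goldenRatio ≤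
          2 * ((n : ℝ) ^ (-δ) * n) * (4 * |c| * Real.log n) + 2 * ε * Real.log Real.goldenRatio := by
          gcongr
      _ = ((8 * |c|) * (Real.log n * (n : ℝ) ^ (-δ)) + (2 * ε * Real.log Real.goldenRatio) * (n : ℝ)⁻¹) * n := by
          field_simp
          ring
      _ ≤ η * n := mul_le_mul_of_nonneg_right hn.le hn0.le
  have hdiv : ((2 * n / t : ℕ) : ℝ) ≤ 2 * n / t := by
    refine (Nat.cast_div_le).trans (le_of_eq ?_)
    push_cast
    rfl
  calc (4 * w : ℝ) ^ (2 * t ^ w) * Real.goldenRatio ^ (2 * n / t) =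
        Real.exp (2 * (t : ℝ) ^ w * Real.log (4 * w)) *
          Real.exp (((2 * n / t : ℕ) : ℝ) * Real.log Real.goldenRatio) := by
        congr 1
        · rw [← Real.rpow_natCast, Real.rpow_def_of_pos (by positivity)]
          push_cast
          rw [mul_comm]
        · rw [← Real.rpow_natCast, Real.rpow_def_of_pos (by positivity), mul_comm]
    _ ≤ Real.exp (η * n - 2 * ε * Real.log Real.goldenRatio) *
          Real.exp ((2 * n / t) * Real.log Real.goldenRatio) := by
        apply mul_le_mul (Real.exp_le_exp.2 (by linarith)) _ (Real.exp_pos _).le (Real.exp_pos _).le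
        apply Real.exp_le_exp.2
        exact mul_le_mul_of_nonneg_right hdiv hlφ.le
    _ = Real.exp (ε * ((n : ℝ) * Real.log Real.goldenRatio - 2 * Real.log Real.goldenRatio)) := by
        rw [← Real.exp_add, hη]
        congr 1
        field_simp
        ring
    _ ≤ Real.exp (ε * Real.log M) := by
        apply Real.exp_le_exp.2
        exact mul_le_mul_of_nonneg_left (by linarith) hε0.le
    _ = (M : ℝ) ^ ε := by rw [Real.rpow_def_of_pos hMR, mul_comm]

/-- **Sparse combinations of Fibonacci numbers have only small factors in common with the Fibonacci and Lucas numbers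
which can be prime.** -/
theorem result :
    -- (1) Fibonacci numbers of odd prime index, arbitrary coefficients
    (∀ p : ℕ, p.Prime → p ≠ 2 → ∀ (K t : ℕ) (u u' : Fin K → ℤ) (a : Fin K → ℕ), 0 < t → ∀ D : ℤ,
      D = ∑ i, (u i * Nat.fib (a i) + u' i * Nat.fib (a i + 1)) → ¬ (Nat.fib p : ℤ) ∣ D →
      (D.gcd (Nat.fib p) : ℝ) ≤
        (4 * ((∑ i, (|u i| + 2 * |u' i|) : ℤ) : ℝ)) ^ (t ^ K) * Real.goldenRatio ^ (2 * p / t)) ∧
    -- (2) Lucas numbers of odd prime index or of index `2 ^ m`, arbitrary coefficients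
    (∀ n : ℕ, ((n.Prime ∧ n ≠ 2) ∨ ∃ m : ℕ, n = 2 ^ m) →
      ∀ (K t : ℕ) (u u' : Fin K → ℤ) (a : Fin K → ℕ), 0 < t → ∀ D : ℤ,
      D = ∑ i, (u i * Nat.fib (a i) + u' i * Nat.fib (a i + 1)) → ¬ (L n : ℤ) ∣ D →
      (D.gcd (L n) : ℝ) ≤
        (4 * ((∑ i, (|u i| + 2 * |u' i|) : ℤ) : ℝ)) ^ (2 * t ^ K) * Real.goldenRatio ^ (2 * n / t)) ∧
    -- (3) up to `c log n` signed Fibonacci numbers
    (∀ (t : ℕ) (ε c : ℝ), 2 ≤ t → 2 / t < ε → c * Real.log t < 1 →
      ∀ᶠ n : ℕ in atTop, ∀ (M w : ℕ) (D : ℤ), Admissible n M → (w : ℝ) ≤ c * Real.log n → IsSum w D →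
        ¬ (M : ℤ) ∣ D → (D.gcd M : ℝ) ≤ (M : ℝ) ^ ε) ∧
    -- (4) the larger factor of every nontrivial factorization, explicitly
    (∀ n M d e w : ℕ, Admissible n M → d * e = M → 1 < e → e ≤ d → IsSum w d → n ≤ 90 * w * 5 ^ w) ∧
    -- (5) the number of Zeckendorf digits of the larger factor
    ∀ᶠ n : ℕ in atTop, ∀ M d e : ℕ, Admissible n M → d * e = M → 1 < e → e ≤ d →
      (0.6 : ℝ) * Real.log n < d.zeckendorf.length := by
  refine ⟨fun p hp hp2 K t u u' a ht D hD hF => ?_, fun n hn K t u u' a ht D hD hF => ?_, log_weight,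
    fun n M d e w hA hde he hed hw => explicit n M d e w hA hde he hed hw, ?_⟩
  · have h1 := gcd_fib p hp hp2 K t ht u u' a D hD hF
    rwa [eps_one] at h1
  · refine bound n (L n) ?_ K t ht u u' a D hD hF
    rcases hn with hn | hn
    · exact Or.inl ⟨hn.1, hn.2, Or.inr rfl⟩
    · exact Or.inr ⟨hn, rfl⟩
  · have hlog5 : (0.6 : ℝ) * Real.log 5 ≤ 0.97 := by
      have h1 : (5 : ℝ) ^ 60 ≤ Real.exp 1 ^ 97 := by
        have h2 : (2.7182 : ℝ) ≤ Real.exp 1 := by
          have := Real.exp_one_gt_d9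
          linarith
        calc (5 : ℝ) ^ 60 ≤ 2.7182 ^ 97 := by norm_num
          _ ≤ _ := pow_le_pow_left₀ (by norm_num) h2 _
      have h2 := Real.log_le_log (by positivity) h1
      rw [Real.log_pow, Real.log_pow, Real.log_exp] at h2
      push_cast at h2
      linarith
    have hlim : Tendsto (fun n : ℕ => 54 * (Real.log n * (n : ℝ) ^ (-(0.03 : ℝ)))) atTop (nhds 0) := by
      have h1 := (tendsto_log_rpow 0.03 (by norm_num)).const_mul 54
      simpa using h1
    filter_upwards [hlim.eventually (gt_mem_nhds one_pos), eventually_ge_atTop 2] with n hn hn2 M d e hA hde he hed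
    by_contra hcon
    push Not at hcon
    obtain ⟨w, hw⟩ : ∃ w, w = d.zeckendorf.length := ⟨_, rfl⟩
    rw [← hw] at hcon
    have h1 := explicit n M d e w hA hde he hed (by rw [hw]; exact isSum_zeckendorf d)
    have h2 : (n : ℝ) ≤ 90 * w * 5 ^ w := by exact_mod_cast h1
    have hn0 : (0 : ℝ) < n := by exact_mod_cast (by omega : 0 < n)
    have hn1 : (1 : ℝ) < n := by exact_mod_cast (by omega : 1 < n)
    have hlogn : 0 < Real.log n := Real.log_pos hn1
    have h3 : (5 : ℝ) ^ w ≤ (n : ℝ) ^ (-(0.03 : ℝ)) * n := by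
      calc (5 : ℝ) ^ w = (5 : ℝ) ^ (w : ℝ) := by rw [Real.rpow_natCast]
        _ ≤ (5 : ℝ) ^ (0.6 * Real.log n) := Real.rpow_le_rpow_of_exponent_le (by norm_num) hcon
        _ = (n : ℝ) ^ (0.6 * Real.log 5) := by
            rw [Real.rpow_def_of_pos (by norm_num), Real.rpow_def_of_pos hn0]
            congr 1
            ring
        _ ≤ (n : ℝ) ^ (-(0.03 : ℝ) + 1) := Real.rpow_le_rpow_of_exponent_le hn1.le (by linarith)
        _ = _ := by rw [Real.rpow_add hn0, Real.rpow_one]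
    have h4 : (n : ℝ) ≤ (54 * (Real.log n * (n : ℝ) ^ (-(0.03 : ℝ)))) * n := by
      calc (n : ℝ) ≤ 90 * w * 5 ^ w := h2
        _ ≤ 90 * (0.6 * Real.log n) * ((n : ℝ) ^ (-(0.03 : ℝ)) * n) := by gcongr
        _ = _ := by ring
    have h5 : (54 * (Real.log n * (n : ℝ) ^ (-(0.03 : ℝ)))) * n < 1 * n := mul_lt_mul_of_pos_right hn hn0
    linarith

end Pool.Agent.Results.MP_5893d7_nt.GcdWithSparseCombinations
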