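import Mathlib
import Pool.Agent.J4.H64.FL.Final

/-!
# MP_5893d7_nt: Fibonacci and Lucas numbers have no factorizations in nearly smooth proportion

Let `S` be a finite set of primes. If a Fibonacci or Lucas number `F` is composite, `F = d e`, then the
ratio `d / e` is never very near to a ratio of integers composed of the primes in `S`: for every `ε > 0` one has
`|A d - B e| ≥ (A B F) ^ (1 / 4 - ε)` for all `A`, `B` with all prime factors in `S`, whatever their size, with
at most finitely many exceptional indices. This is extended to factorizations `F_n = d_1 ⋯ d_t` into any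
number of factors, `max |A_i d_i - A_j d_j| ≥ (A_1 ⋯ A_t F_n) ^ (1 / (2 t) - ε)`, where now the indices `n`
divisible by `t` have to be excluded if `A_1 ⋯ A_t` has a special shape; there is no exception for prime
indices `n > t`. The exponent `1 / (2 t)` is the natural one: differences of this size
are those for which `A_1 d_1 + ⋯ + A_t d_t` is determined by `A_1 ⋯ A_t F_n` (for `t = 2`, `A = B = 1`
these are the factorizations found in the first step of Fermat's method).

Proof (`Pool/Agent/J4/H64/FL`). Let `x_i = A_i d_i`, let `G` be their geometric mean and let all the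
differences be less than `G ^ (1 / 2 - ε)`. We may assume that the `A_i` are coprime. If `G` is larger than
`F ^ (2 - ε)` then two different `x_i` have smooth divisors whose product is too large for Ridout's theorem (with
the algebraic number `1`). Otherwise `X = x_1 + ⋯ + x_t` is extremely near to `t G`, and if
`A_1 ⋯ A_t = u w ^ t` with bounded `u` and `n = t k + δ`, `0 ≤ δ < t`, then `t G` is extremely near to
`Γ w φ ^ k`, with an algebraic number `Γ`. The subspace theorem for the vector `(w U_k, w U_(k+1), X)`, which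
has two smooth coordinates up to a bounded multiple of their size, gives `√5 Γ ∈ ℚ(√5)`, so
`ξ = (u κ) ^ (1/t) φ ^ (δ/t)` is in `ℚ(√5)` (`κ = 1 / √5` or `1`). Then `τ = ξ / ξ' + ξ' / ξ` is a rational
algebraic integer with `|τ| = φ ^ (2 δ / t) + φ ^ (- 2 δ / t)`, which is between `2` and `3`, so `δ = 0`, and one
obtains the exceptional shapes. For `t = 2` also these are excluded, since `2` and `10` are not squares.
-/

set_option autoImplicit false

namespace Pool.Agent.Results.MP_5893d7_nt.ProportionalDivisors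

open Filter

/-- `a` is a positive integer all of whose prime factors are in `S`. -/
def Smooth (S : Finset ℕ) (a : ℕ) : Prop := 0 < a ∧ ∀ p : ℕ, p.Prime → p ∣ a → p ∈ S

/-- The Lucas numbers. -/
def luc : ℕ → ℕ
  | 0 => 2
  | 1 => 1
  | n + 2 => luc n + luc (n + 1)

theorem luc_eq (n : ℕ) : luc n = Pool.Agent.J4.H64.FL.luc n := by
  induction n using Nat.strong_induction_on with
  | _ n ih =>
    match n with
    | 0 => rfl
    | 1 => rfl
    | n + 2 => rw [luc, Pool.Agent.J4.H64.FL.luc, ih n (by omega), ih (n + 1) (by omega)]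

/-- Let `S` be a finite set of primes and `ε > 0`.

(1) If `n` is sufficiently large and `d e = U_n` or `d e = V_n` (Fibonacci, Lucas) then
`|A d - B e| ≥ (A B d e) ^ (1 / 4 - ε)` for all positive integers `A`, `B` with all prime factors in `S`.

(2) Let `t ≥ 2`. If `n` is sufficiently large, `U_n = d_1 ⋯ d_t` and `A_1, …, A_t` are positive integers with all
prime factors in `S`, then `|A_i d_i - A_j d_j| ≥ (A_1 ⋯ A_t U_n) ^ (1 / (2 t) - ε)` for some `i` and `j`, unless
`t` is odd, `t ∣ n` and `A_1 ⋯ A_t = 5 ^ ((t + 1) / 2) r ^ t` with a rational number `r`.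

(3) The same for `V_n = d_1 ⋯ d_t`, unless `t ∣ n` and `A_1 ⋯ A_t = r ^ t`, or `t` is even and
`A_1 ⋯ A_t = 5 ^ (t / 2) r ^ t`, with a rational number `r`. -/
theorem result (S : Finset ℕ) (ε : ℝ) (hε : 0 < ε) :
    (∀ᶠ n in atTop, ∀ d e A B : ℕ, (d * e = Nat.fib n ∨ d * e = luc n) → Smooth S A → Smooth S B →
      ((A * B * (d * e) : ℕ) : ℝ) ^ (1 / 4 - ε) ≤ |(A : ℝ) * d - (B : ℝ) * e|) ∧
    (∀ t : ℕ, 2 ≤ t → ∀ᶠ n in atTop, ∀ d A : Fin t → ℕ, ∏ i, d i = Nat.fib n →
      (∀ i, Smooth S (A i)) →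
      ¬ (Odd t ∧ t ∣ n ∧ ∃ r : ℚ, ((∏ i, A i : ℕ) : ℚ) = 5 ^ ((t + 1) / 2) * r ^ t) →
      ∃ i j, (((∏ i, A i) * Nat.fib n : ℕ) : ℝ) ^ (1 / (2 * (t : ℝ)) - ε)
        ≤ |(A i : ℝ) * d i - (A j : ℝ) * d j|) ∧
    (∀ t : ℕ, 2 ≤ t → ∀ᶠ n in atTop, ∀ d A : Fin t → ℕ, ∏ i, d i = luc n →
      (∀ i, Smooth S (A i)) →
      ¬ (t ∣ n ∧ ∃ r : ℚ, ((∏ i, A i : ℕ) : ℚ) = r ^ t ∨
        (Even t ∧ ((∏ i, A i : ℕ) : ℚ) = 5 ^ (t / 2) * r ^ t)) →
      ∃ i j, (((∏ i, A i) * luc n : ℕ) : ℝ) ^ (1 / (2 * (t : ℝ)) - ε)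
        ≤ |(A i : ℝ) * d i - (A j : ℝ) * d j|) := by
  refine ⟨?_, fun t ht => Pool.Agent.J4.H64.FL.main_fib S ht hε, fun t ht => ?_⟩
  · filter_upwards [Pool.Agent.J4.H64.FL.main_two S hε] with n hn
    intro d e A B h hA hB
    rw [luc_eq] at h
    exact hn d e A B h hA hB
  · filter_upwards [Pool.Agent.J4.H64.FL.main_luc S ht hε] with n hn
    intro d A h hA hE
    rw [luc_eq] at h ⊢
    exact hn d A h hA hE

end Pool.Agent.Results.MP_5893d7_nt.ProportionalDivisors
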