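import Mathlib
import Pool.Agent.J4.H52.FS.Final
import Pool.Agent.J4.H52.FS.Period

/-!
# Large divisors of Fibonacci and Lucas numbers and sums of few almost units

Let `S` be a finite set of primes and `M = F_n` or `M = L_n`.  An integer of the form
`D = m_1 u_1 + ... + m_k u_k`, where the `u_i` are positive integers all of whose prime factors lie
in `S`, `u_i ≤ M ^ κ`, and where the coefficients `m_i` are arbitrary integers with
`|m_i| ≤ M ^ δ`, has only small common divisors with `M`: for every `ε > 0` there is `δ > 0`,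
depending only on `S`, `k`, `κ` and `ε`, such that `gcd(D, M) ≤ M ^ ε` for all large `n`, unless
`D = 0`.

The same bound holds for `gcd(N, M)` if `N ≤ M ^ κ` is a positive integer whose expansion in a fixed
base `b` is a concatenation of at most `k` words, each with a period at most `δ n` (a word of length
at most `δ n` is allowed to be arbitrary).  In particular no divisor `d > M ^ ε` of `M` has such an
expansion; for instance its nonzero digits are never covered by `k` blocks of length `δ n`.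

The proof: along an ultrafilter one takes a basis of the space spanned by the monomials of degree
`N + 1` in the terms `m_i u_i`, where the dimension grows slowly from degree `N` to degree `N + 1`;
the subspace theorem is applied to the products of these monomials with `F_{4nj} / g`,
`(F_{4nj-1} - 1) / g` and with `D / g`, where `g = gcd(D, M)`; the resulting linear relation
contradicts the linear independence of the powers of the golden ratio over the sums of almost units,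
which is deduced from the unit equation with small coefficients.
-/

set_option autoImplicit false

namespace Pool.Agent.Results.MP_5893d7_nt.SumsOfAlmostUnits

open Pool.Agent.J4.H52.FS Real

/-- The Lucas numbers. -/
def luc : ℕ → ℕ
  | 0 => 2
  | 1 => 1
  | n + 2 => luc n + luc (n + 1)

/-- `M` is the `n`-th Fibonacci number or the `n`-th Lucas number. -/
def Term (n M : ℕ) : Prop := M = Nat.fib n ∨ M = luc n

/-- The positive integers all of whose prime factors lie in `S`. -/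
def Smooth (S : Finset ℕ) (a : ℕ) : Prop := 0 < a ∧ ∀ p, p.Prime → p ∣ a → p ∈ S

/-- `D` is a sum of `k` terms `m u` with `|m| ≤ A`, `u ≤ B`, all prime factors of `u` in `S`. -/
def ShortSum (S : Finset ℕ) (k : ℕ) (A B : ℝ) (D : ℤ) : Prop :=
  ∃ (m : Fin k → ℤ) (u : Fin k → ℕ), (∀ i, |(m i : ℝ)| ≤ A) ∧ (∀ i, Smooth S (u i)) ∧
    (∀ i, (u i : ℝ) ≤ B) ∧ D = ∑ i, m i * (u i : ℤ)

lemma luc_succ (n : ℕ) : luc (n + 1) = Nat.fib n + Nat.fib (n + 2) := by
  induction n using Nat.twoStepInduction with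
  | zero => simp [luc]
  | one => simp [luc, Nat.fib_add_two]
  | more n h1 h2 =>
    have h3 : luc (n + 2 + 1) = luc (n + 1) + luc (n + 1 + 1) := rfl
    have h4 : Nat.fib (n + 2) = Nat.fib n + Nat.fib (n + 1) := Nat.fib_add_two
    have h5 : Nat.fib (n + 1 + 2) = Nat.fib (n + 1) + Nat.fib (n + 2) := Nat.fib_add_two
    have h6 : Nat.fib (n + 2 + 2) = Nat.fib (n + 2) + Nat.fib (n + 1 + 2) := Nat.fib_add_two
    rw [h3, h1, h2, h6]
    omega

lemma luc_dvd (n : ℕ) : luc n ∣ Nat.fib (2 * n) := by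
  rcases n with _ | n
  · simp
  · rw [Nat.fib_two_mul, luc_succ]
    have h1 : Nat.fib (n + 1 + 1) = Nat.fib n + Nat.fib (n + 1) := Nat.fib_add_two
    have h2 : 2 * Nat.fib (n + 1 + 1) - Nat.fib (n + 1) = Nat.fib n + Nat.fib (n + 2) := by
      have : Nat.fib (n + 2) = Nat.fib (n + 1 + 1) := rfl
      omega
    rw [h2]
    exact Dvd.intro_left _ rfl

lemma fib_log (n : ℕ) (hn : 3 ≤ n) : Real.log goldenRatio / 4 * n ≤ Real.log (Nat.fib n) := by
  have hL : 0 < Real.log goldenRatio := Real.log_pos one_lt_goldenRatio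
  obtain ⟨t, rfl⟩ : ∃ t, n = t + 2 := ⟨n - 2, by omega⟩
  have h1 := Real.log_le_log (pow_pos goldenRatio_pos t) (pow_le_fib t)
  rw [Real.log_pow] at h1
  have h2 : (1 : ℝ) ≤ t := by exact_mod_cast (by omega : 1 ≤ t)
  push_cast
  nlinarith

lemma luc_log (n : ℕ) (hn : 3 ≤ n) :
    Real.log goldenRatio / 4 * ((2 * n : ℕ) : ℝ) ≤ Real.log (luc n) := by
  have hL : 0 < Real.log goldenRatio := Real.log_pos one_lt_goldenRatio
  obtain ⟨t, rfl⟩ : ∃ t, n = t + 1 := ⟨n - 1, by omega⟩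
  have h0 : goldenRatio ^ t ≤ (luc (t + 1) : ℝ) := by
    refine (pow_le_fib t).trans ?_
    rw [luc_succ]
    push_cast
    have : (0 : ℝ) ≤ Nat.fib t := Nat.cast_nonneg _
    linarith
  have h1 := Real.log_le_log (pow_pos goldenRatio_pos t) h0
  rw [Real.log_pow] at h1
  have h2 : (2 : ℝ) ≤ t := by exact_mod_cast (by omega : 2 ≤ t)
  push_cast
  nlinarith

/-- every term of large index divides a Fibonacci number of comparable size -/
lemma term_dvd {n M : ℕ} (hn : 3 ≤ n) (h : Term n M) :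
    ∃ N, n ≤ N ∧ M ∣ Nat.fib N ∧ Real.log goldenRatio / 4 * N ≤ Real.log M := by
  rcases h with rfl | rfl
  · exact ⟨n, le_rfl, dvd_rfl, fib_log n hn⟩
  · exact ⟨2 * n, by omega, luc_dvd n, luc_log n hn⟩

lemma exists_base (S : Finset ℕ) : ∃ b : ℕ, 2 ≤ b ∧ ∀ a, Smooth S a → ∃ K, a ∣ b ^ K := by
  classical
  refine ⟨2 * ∏ p ∈ S.filter Nat.Prime, p, ?_, ?_⟩
  · have : 0 < ∏ p ∈ S.filter Nat.Prime, p :=
      Finset.prod_pos fun p hp => (Finset.mem_filter.1 hp).2.pos
    omega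
  · intro a ha
    have hb0 : 2 * ∏ p ∈ S.filter Nat.Prime, p ≠ 0 := by
      have : 0 < ∏ p ∈ S.filter Nat.Prime, p :=
        Finset.prod_pos fun p hp => (Finset.mem_filter.1 hp).2.pos
      omega
    refine ⟨a, ?_⟩
    rw [← Nat.factorization_le_iff_dvd ha.1.ne' (pow_ne_zero _ hb0)]
    intro p
    rw [Nat.factorization_pow, Finsupp.smul_apply, smul_eq_mul]
    by_cases hp : p.Prime
    · by_cases hpa : p ∣ a
      · have h1 : p ∣ 2 * ∏ p ∈ S.filter Nat.Prime, p :=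
          (Finset.dvd_prod_of_mem (fun p => p)
            (Finset.mem_filter.2 ⟨ha.2 p hp hpa, hp⟩)).trans (Dvd.intro_left _ rfl)
        have h2 : 1 ≤ (2 * ∏ p ∈ S.filter Nat.Prime, p).factorization p :=
          (hp.dvd_iff_one_le_factorization hb0).1 h1
        have h3 : a.factorization p ≤ a := (Nat.factorization_lt p ha.1.ne').le
        nlinarith
      · rw [Nat.factorization_eq_zero_of_not_dvd hpa]
        exact Nat.zero_le _
    · rw [Nat.factorization_eq_zero_of_not_prime a hp]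
      exact Nat.zero_le _

/-- **Common divisors with sums of almost units.** -/
theorem gcd_bound (S : Finset ℕ) (k : ℕ) (κ ε : ℝ) (hε : 0 < ε) :
    ∃ δ : ℝ, 0 < δ ∧ ∃ n0 : ℕ, ∀ n : ℕ, n0 ≤ n → ∀ M : ℕ, Term n M → ∀ D : ℤ, D ≠ 0 →
      ShortSum S k ((M : ℝ) ^ δ) ((M : ℝ) ^ κ) D → (Int.gcd D M : ℝ) ≤ (M : ℝ) ^ ε := by
  obtain ⟨b, hb, hS⟩ := exists_base S
  obtain ⟨δ, hδ, n0, h⟩ := main2 b hb k κ ε hε
  refine ⟨δ, hδ, max n0 3, fun n hn M hM D hD hsum => ?_⟩
  obtain ⟨N, hN1, hN2, hN3⟩ := term_dvd ((le_max_right _ _).trans hn) hM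
  obtain ⟨m, u, h1, h2, h3, rfl⟩ := hsum
  exact h N (((le_max_left _ _).trans hn).trans hN1) M hN2 hN3 m u h1 (fun i => hS _ (h2 i)) h3 hD

/-- The base `b` expansion of `N` is a concatenation of `k` words (some of them possibly empty, the
last ones possibly with leading zeros), each with a period at most `R`: the `j`-th word consists of
the digits at the positions `a j ≤ t < a (j + 1)`. -/
def PiecewisePeriodic (b k : ℕ) (R : ℝ) (N : ℕ) : Prop :=
  ∃ a : ℕ → ℕ, Monotone a ∧ a 0 = 0 ∧ N < b ^ a k ∧ ∀ j < k, ∃ r : ℕ, 1 ≤ r ∧ (r : ℝ) ≤ R ∧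
    ∀ t, a j ≤ t → t + r < a (j + 1) → N / b ^ t % b = N / b ^ (t + r) % b

/-- **Common divisors with piecewise periodic integers.** -/
theorem periodic_bound (b k : ℕ) (κ ε : ℝ) (hb : 2 ≤ b) (hε : 0 < ε) :
    ∃ δ : ℝ, 0 < δ ∧ ∃ n0 : ℕ, ∀ n : ℕ, n0 ≤ n → ∀ M : ℕ, Term n M → ∀ N : ℕ, 0 < N →
      (N : ℝ) ≤ (M : ℝ) ^ κ → PiecewisePeriodic b k (δ * n) N →
        (Nat.gcd N M : ℝ) ≤ (M : ℝ) ^ ε := by
  classical
  have hL : 0 < Real.log goldenRatio := Real.log_pos one_lt_goldenRatio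
  have hlb : 0 < Real.log b := Real.log_pos (by exact_mod_cast (by omega : 1 < b))
  obtain ⟨δ1, hδ1, n0, h⟩ := gcd_bound b.primeFactors (Fintype.card (Fin k × Bool)) (κ + 1) ε hε
  obtain ⟨δ, hδ⟩ : ∃ δ : ℝ, δ = min (δ1 * Real.log goldenRatio / (4 * (k + 1) * Real.log b))
      (Real.log goldenRatio / (8 * Real.log b)) := ⟨_, rfl⟩
  have hδ0 : 0 < δ := by
    rw [hδ]
    exact lt_min (by positivity) (by positivity)
  have hδa : δ * (4 * (k + 1) * Real.log b) ≤ δ1 * Real.log goldenRatio := by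
    have : δ ≤ δ1 * Real.log goldenRatio / (4 * (k + 1) * Real.log b) := by
      rw [hδ]
      exact min_le_left _ _
    rwa [le_div_iff₀ (by positivity)] at this
  have hδb : δ * (8 * Real.log b) ≤ Real.log goldenRatio := by
    have : δ ≤ Real.log goldenRatio / (8 * Real.log b) := by
      rw [hδ]
      exact min_le_right _ _
    rwa [le_div_iff₀ (by positivity)] at this
  obtain ⟨n1, hn1⟩ := exists_nat_gt (8 * Real.log b / Real.log goldenRatio)
  refine ⟨δ, hδ0, max (max n0 n1) 3, fun n hn M hM N hN hNM hPP => ?_⟩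
  have hn0' : n0 ≤ n := ((le_max_left _ _).trans (le_max_left _ _)).trans hn
  have hn1' : n1 ≤ n := ((le_max_right _ _).trans (le_max_left _ _)).trans hn
  have hn3 : 3 ≤ n := (le_max_right _ _).trans hn
  obtain ⟨N', hN1, hN2, hN3⟩ := term_dvd hn3 hM
  have hM0 : 0 < M := Nat.pos_of_dvd_of_pos hN2 (Nat.fib_pos.2 (by omega))
  have hMR : (0 : ℝ) < M := by exact_mod_cast hM0
  have hlM : Real.log goldenRatio / 4 * n ≤ Real.log M := by
    refine le_trans ?_ hN3
    have : (n : ℝ) ≤ N' := by exact_mod_cast hN1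
    exact mul_le_mul_of_nonneg_left this (by positivity)
  obtain ⟨a, ha, ha0, hak, hper⟩ := hPP
  choose! r hr1 hr2 hr3 using hper
  obtain ⟨R, hR⟩ : ∃ R : ℕ, R = ⌊δ * n⌋₊ := ⟨_, rfl⟩
  have hR1 : (R : ℝ) ≤ δ * n := by
    rw [hR]
    exact Nat.floor_le (by positivity)
  have hrR : ∀ j < k, r j ≤ R := by
    intro j hj
    rw [hR]
    exact Nat.le_floor (hr2 j hj)
  obtain ⟨m, u, P, hP, h1, h2, h3, h4⟩ := pp_decomp b hb k N hN a ha ha0 hak r R hr1 hrR hr3
  have hbound1 : (b : ℝ) ^ ((k + 1) * R) ≤ (M : ℝ) ^ δ1 := by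
    rw [Real.rpow_def_of_pos hMR, ← Real.exp_log (x := (b : ℝ) ^ ((k + 1) * R)) (by positivity),
      Real.log_pow]
    refine Real.exp_le_exp.2 ?_
    push_cast
    have e1 : ((k : ℝ) + 1) * R * Real.log b ≤ (k + 1) * (δ * n) * Real.log b :=
      mul_le_mul_of_nonneg_right (mul_le_mul_of_nonneg_left hR1 (by positivity)) hlb.le
    have e2 : ((k : ℝ) + 1) * (δ * n) * Real.log b =
        δ * (4 * (k + 1) * Real.log b) / 4 * n := by ring
    have e3 : δ * (4 * (k + 1) * Real.log b) / 4 * n ≤ δ1 * Real.log goldenRatio / 4 * n :=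
      mul_le_mul_of_nonneg_right (by linarith) (Nat.cast_nonneg n)
    have e4 : Real.log goldenRatio / 4 * n * δ1 ≤ Real.log M * δ1 :=
      mul_le_mul_of_nonneg_right hlM hδ1.le
    linarith
  have hbound2 : (b : ℝ) * (b : ℝ) ^ R ≤ M := by
    rw [← Real.log_le_log_iff (by positivity) hMR, Real.log_mul (by positivity) (by positivity),
      Real.log_pow]
    have e1 : (R : ℝ) * Real.log b ≤ δ * n * Real.log b := mul_le_mul_of_nonneg_right hR1 hlb.le
    have e2 : δ * n * Real.log b = δ * (8 * Real.log b) / 8 * n := by ring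
    have e3 : δ * (8 * Real.log b) / 8 * n ≤ Real.log goldenRatio / 8 * n :=
      mul_le_mul_of_nonneg_right (by linarith) (Nat.cast_nonneg n)
    have e4 : Real.log b ≤ Real.log goldenRatio / 8 * n := by
      have h6 : 8 * Real.log b / Real.log goldenRatio ≤ n := hn1.le.trans (by exact_mod_cast hn1')
      rw [div_le_iff₀ hL] at h6
      linarith
    linarith
  obtain ⟨E⟩ : Nonempty (Fin (Fintype.card (Fin k × Bool)) ≃ Fin k × Bool) :=
    ⟨(Fintype.equivFin _).symm⟩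
  have hNP : (((N * P : ℕ)) : ℤ) ≠ 0 := by
    exact_mod_cast (Nat.mul_pos hN hP).ne'
  have hgcd := h n hn0' M hM ((N * P : ℕ) : ℤ) hNP ⟨fun i => m (E i), fun i => u (E i), fun i => ?_,
    fun i => ?_, fun i => ?_, ?_⟩
  · refine le_trans ?_ hgcd
    rw [Int.gcd_natCast_natCast]
    exact_mod_cast Nat.le_of_dvd (Nat.gcd_pos_of_pos_right _ hM0)
      (Nat.gcd_dvd_gcd_of_dvd_left M (Nat.dvd_mul_right N P))
  · refine le_trans ?_ hbound1
    rw [← Int.cast_abs]
    exact_mod_cast h1 (E i)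
  · obtain ⟨K, hK⟩ := h2 (E i)
    dsimp only
    rw [hK]
    refine ⟨pow_pos (by omega) _, fun p hp hpK => ?_⟩
    exact Nat.mem_primeFactors.2 ⟨hp, hp.dvd_of_dvd_pow hpK, by omega⟩
  · have e1 : (u (E i) : ℝ) ≤ (b : ℝ) * N * (b : ℝ) ^ R := by exact_mod_cast h3 (E i)
    refine e1.trans ?_
    rw [Real.rpow_add hMR, Real.rpow_one]
    have e2 : (b : ℝ) * N * (b : ℝ) ^ R = N * ((b : ℝ) * (b : ℝ) ^ R) := by ring
    rw [e2]
    exact mul_le_mul hNM hbound2 (by positivity) (Real.rpow_nonneg hMR.le _)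
  · rw [h4]
    exact (Equiv.sum_comp E fun i => m i * (u i : ℤ)).symm

/-- **Large divisors are not piecewise periodic.** -/
theorem divisors_bound (b k : ℕ) (ε : ℝ) (hb : 2 ≤ b) (hε : 0 < ε) :
    ∃ δ : ℝ, 0 < δ ∧ ∃ n0 : ℕ, ∀ n : ℕ, n0 ≤ n → ∀ M : ℕ, Term n M → ∀ d : ℕ, d ∣ M →
      (M : ℝ) ^ ε < d → ¬ PiecewisePeriodic b k (δ * n) d := by
  obtain ⟨δ, hδ, n0, h⟩ := periodic_bound b k 1 ε hb hε
  refine ⟨δ, hδ, max n0 3, fun n hn M hM d hd hdM hPP => ?_⟩
  obtain ⟨N', hN1, hN2, hN3⟩ := term_dvd ((le_max_right _ _).trans hn) hM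
  have hM0 : 0 < M := Nat.pos_of_dvd_of_pos hN2 (Nat.fib_pos.2 (by omega))
  have hd0 : 0 < d := Nat.pos_of_dvd_of_pos hd hM0
  have h1 := h n ((le_max_left _ _).trans hn) M hM d hd0 (by
    rw [Real.rpow_one]
    exact_mod_cast Nat.le_of_dvd hM0 hd) hPP
  rw [Nat.gcd_eq_left hd] at h1
  linarith

/-- **Common divisors of Fibonacci and Lucas numbers with sums of few almost units, and with
integers whose expansion consists of few periodic words.** -/
theorem result :
    (∀ (S : Finset ℕ) (k : ℕ) (κ ε : ℝ), 0 < ε → ∃ δ : ℝ, 0 < δ ∧ ∃ n0 : ℕ, ∀ n : ℕ, n0 ≤ n →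
      ∀ M : ℕ, Term n M → ∀ D : ℤ, D ≠ 0 → ShortSum S k ((M : ℝ) ^ δ) ((M : ℝ) ^ κ) D →
        (Int.gcd D M : ℝ) ≤ (M : ℝ) ^ ε) ∧
    (∀ (b k : ℕ) (κ ε : ℝ), 2 ≤ b → 0 < ε → ∃ δ : ℝ, 0 < δ ∧ ∃ n0 : ℕ, ∀ n : ℕ, n0 ≤ n →
      ∀ M : ℕ, Term n M → ∀ N : ℕ, 0 < N → (N : ℝ) ≤ (M : ℝ) ^ κ →
        PiecewisePeriodic b k (δ * n) N → (Nat.gcd N M : ℝ) ≤ (M : ℝ) ^ ε) ∧
    (∀ (b k : ℕ) (ε : ℝ), 2 ≤ b → 0 < ε → ∃ δ : ℝ, 0 < δ ∧ ∃ n0 : ℕ, ∀ n : ℕ, n0 ≤ n →
      ∀ M : ℕ, Term n M → ∀ d : ℕ, d ∣ M → (M : ℝ) ^ ε < d →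
        ¬ PiecewisePeriodic b k (δ * n) d) :=
  ⟨fun S k κ ε hε => gcd_bound S k κ ε hε,
    fun b k κ ε hb hε => periodic_bound b k κ ε hb hε,
    fun b k ε hb hε => divisors_bound b k ε hb hε⟩

end Pool.Agent.Results.MP_5893d7_nt.SumsOfAlmostUnits
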